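import Pool.Agent.EMT.TFin

/-!
# MP_7da257_lc: two adjacent vertices of degree twelve cannot be drawn

A finite tree with two adjacent vertices of degree at least `12` has no Euclidean minimum spanning
tree drawing in space; so for every `n ≥ 24` there is a tree with `n` vertices and of maximum
degree `12` that is not realizable.

## Proof

Let `p` be a drawing, `a`, `b` adjacent of degree `≥ 12`, `|p a - p b| = 1` (scaling).  For every
edge `e` on the path from `u` to `v`, the length of `e` is at most `|p u - p v|`
(`EMT/Mst.len_le`: otherwise exchange `e` for `uv`).  Let `x_1, ..., x_11` be the unit vectors from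
`p a` towards eleven other neighbours, `r_i` the lengths of these edges and `t_i = <x_i, e>`,
`e = p b - p a`; similarly `y_j`, `s_j`, `u_j` at `b` (with `-e`).  Then `<x_i, x_j> ≤ 1/2`,
`min(1, r_i) ≤ ...`, and for the opposite pairs `|p u - p v|^2 ≥ max(1, r_i, s_j)^2`, a condition
on `x_i`, `y_j` that is eliminated for two types of directions (`EMT/Two`, `EMT/Typed`, `EMT/Norm`:
short edges `r_i ≤ 1/2` and long edges).  These conditions are contradicted by a three point
(Bachoc-Vallentin) certificate: positive semidefinite matrices `V` of degree `5` in Legendre
polynomials (found by computer as a semidefinite program, scaled by `2^18` and rounded), zonal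
matrices with respect to the pole `e`, whose inequality is checked on the boxes of a subdivision
(3550 boxes) by Bernstein coefficients in exact integer arithmetic (`EMT/KN1, KN2, KN3`, kernel
evaluation of packed polynomials), for the 13 cases of `EMT/TCert`.
-/

set_option autoImplicit false

namespace Pool.Agent.Results.MP_7da257_lc.AdjacentDegreeTwelve

open Pool.Agent.EMT

theorem result {V : Type*} [Fintype V] (T : SimpleGraph V) [DecidableRel T.Adj] (hT : T.IsTree)
    (a b : V) (hab : T.Adj a b) (ha : 12 ≤ T.degree a) (hb : 12 ≤ T.degree b) :
    ¬ ∃ p : V → E3, IsDrawing T p :=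
  fun ⟨p, hp⟩ => no_drawing_of_adj hT hab ha hb p hp

end Pool.Agent.Results.MP_7da257_lc.AdjacentDegreeTwelve
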