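import Pool.Agent.EMT.SW.Fin
import Pool.Agent.EMT.SW.Path
import Pool.Agent.EMT.TFin

/-!
# MP_7da257_lc: almost all trees of maximum degree at most twelve cannot be drawn

There is `C > 0` such that of all labelled trees with `n` vertices and of maximum degree at most
`12`, at most the proportion `2 ^ (- n / C)` has a Euclidean minimum spanning tree drawing in space.

## Proof

A tree with two adjacent vertices of degree `12` has no drawing (`EMT/TFin.no_drawing_of_adj`), so
it is enough to show that almost all trees have two such vertices. Switching (`EMT/SW`): `mv T x v`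
is the tree obtained from `T` by bypassing a vertex `x` of degree at most two (its neighbours become
adjacent) and hanging it as a leaf on `v`. For pairwise different vertices `y_0, ..., y_23` of
degree at most two hang `y_1` on `y_0`, then `y_2, ..., y_12` on `y_1` and `y_13, ..., y_23` on
`y_2`: now `y_1`, `y_2` are adjacent of degree `12`. At least half of the vertices of a tree have
degree at most two, so there are at least `(n / 4) ^ 24` such patterns, also if they have to avoid
`j ≤ n / C` pairs made before; the new tree and `(y_1, y_2)` come from at most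
`24 ^ 24 (2 n) ^ 23` trees and patterns; and a pattern creates at most `118` ordered pairs of
adjacent vertices of degree `12`. So `k = n / C` steps give
`#(trees without pair) * (n / C_1) ^ k ≤ #(trees) * (118 k) ^ k`.
-/

set_option autoImplicit false

namespace Pool.Agent.Results.MP_7da257_lc.AlmostAllTrees

open Pool.Agent.EMT

theorem result : ∃ C : ℕ, 0 < C ∧ ∀ n : ℕ, 1 ≤ n →
    0 < {T : SimpleGraph (Fin n) | T.IsTree ∧ ∀ a, (T.neighborSet a).ncard ≤ 12}.ncard ∧
    {T : SimpleGraph (Fin n) | T.IsTree ∧ (∀ a, (T.neighborSet a).ncard ≤ 12) ∧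
      ∃ p : Fin n → E3, IsDrawing T p}.ncard * 2 ^ (n / C) ≤
    {T : SimpleGraph (Fin n) | T.IsTree ∧ ∀ a, (T.neighborSet a).ncard ≤ 12}.ncard := by
  classical
  refine ⟨236 * (4 ^ 24 * 24 ^ 24 * 2 ^ 23), by positivity, fun n hn => ⟨?_, ?_⟩⟩
  · exact (Set.ncard_pos (Set.toFinite _)).2 (SW.good_nonempty n hn)
  · have h := SW.few (V := Fin n)
    rw [Nat.card_fin] at h
    refine le_trans (Nat.mul_le_mul_right _ (Set.ncard_le_ncard ?_ (Set.toFinite _))) h
    rintro T ⟨h1, h2, p, hp⟩
    refine ⟨⟨h1, h2⟩, ?_⟩
    by_contra hne
    obtain ⟨⟨a, b⟩, hab, ha, hb⟩ := Set.nonempty_iff_ne_empty.2 hne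
    have hdeg : ∀ c, T.degree c = (T.neighborSet c).ncard := fun c => by
      rw [Set.ncard_eq_toFinset_card', ← SimpleGraph.card_neighborSet_eq_degree, Set.toFinset_card]
    refine no_drawing_of_adj h1 (a := a) (b := b) hab ?_ ?_ p hp
    · rw [hdeg]
      exact ha.ge
    · rw [hdeg]
      exact hb.ge

end Pool.Agent.Results.MP_7da257_lc.AlmostAllTrees
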