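import Pool.Agent.TD25.Main4
import Pool.Agent.TD25.Bridge2

/-!
Euclidean minimum spanning tree drawings in `ℝ³`: trees of maximum degree at most 12 whose
vertices of degree 11 and 12 have guards.
-/

set_option autoImplicit false

open Finset

namespace Pool.Agent.Results.MP_7da257_lc.GuardedHighDegrees

/-- The degree: the number of neighbours. -/
noncomputable def deg {V : Type*} (T : SimpleGraph V) (v : V) : ℕ := (T.neighborSet v).ncard

/-- In a tree: `x` lies on the path from `a` to `c` and `x ≠ c`. -/
def Seg {V : Type*} (T : SimpleGraph V) (a c x : V) : Prop :=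
  x ≠ c ∧ ∀ q : T.Walk a c, x ∈ q.support

open Classical in
/-- The total Euclidean length of the edges of `G` in the drawing `p`. -/
noncomputable def totalLength {V : Type*} [Fintype V] (p : V → EuclideanSpace ℝ (Fin 3))
    (G : SimpleGraph V) : ℝ :=
  ∑ e ∈ G.edgeFinset, Sym2.lift ⟨fun x y => dist (p x) (p y), fun x y => dist_comm (p x) (p y)⟩ e

/-- `T` is realizable: there is an injective map `p` into `ℝ³` such that no spanning tree of the
points is shorter than `T`. -/
def Realizable {V : Type*} [Fintype V] (T : SimpleGraph V) : Prop :=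
  ∃ p : V → EuclideanSpace ℝ (Fin 3), Function.Injective p ∧
    ∀ G : SimpleGraph V, G.IsTree → totalLength p T ≤ totalLength p G

/-- Let `T` be a finite tree of maximum degree at most 12, `r` a vertex, and suppose that every
vertex `c ≠ r` of degree at least 11 has a guard `g c`, a vertex strictly between `r` and `c`, such
that on the path from `g c` (included) to `c` (excluded) all degrees are at most 10, there is no
guard of another vertex of degree at least 11, and `g c` has degree at most 6 or all degrees are at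
most 8.  Then `T` is realizable in `ℝ³`. -/
theorem result {V : Type*} [Fintype V] (T : SimpleGraph V) (hT : T.IsTree)
    (h12 : ∀ v, deg T v ≤ 12) (r : V) (g : V → V)
    (hg : ∀ c, 11 ≤ deg T c → c ≠ r →
      g c ≠ r ∧ Seg T r c (g c) ∧
      (∀ x, Seg T (g c) c x →
        deg T x ≤ 10 ∧ ∀ c', 11 ≤ deg T c' → c' ≠ r → g c' = x → c' = c) ∧
      (deg T (g c) ≤ 6 ∨ ∀ x, Seg T (g c) c x → deg T x ≤ 8)) :
    Realizable T := by
  classical
  obtain ⟨R, hRr, hR⟩ := TD25.exists_rt T hT r
  have hn : ∀ v, (TD25.nb R v).card = deg T v := by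
    intro v
    unfold deg
    rw [← Set.ncard_coe_finset]
    congr 1
    ext y
    rw [Finset.mem_coe, TD25.mem_nb, SimpleGraph.mem_neighborSet, hR]
  -- ancestors and paths
  have hseg : ∀ a c x, R.D a x → R.D x c → x ≠ c → Seg T a c x := by
    intro a c x hax hxc hne
    refine ⟨hne, fun q => ?_⟩
    by_contra hq
    by_cases hxa : x = a
    · exact hq (hxa ▸ q.start_mem_support)
    · rcases TD25.sameC_of_walk T R hR q hq with ⟨_, h2⟩ | ⟨y, h1, h2, h3, _⟩
      · exact h2 hxc
      · exact hxa (R.D_antisymm (R.D_trans (h2 ▸ R.D_par y) h3) hax)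
  have hanc : ∀ c x, x ≠ R.r → Seg T R.r c x → R.D x c := by
    intro c x hxr hs
    by_contra hD
    have hDr : ¬ R.D x R.r := fun h => hxr (R.D_antisymm h (R.root_D x))
    obtain ⟨q, hq⟩ := TD25.walk_of_sameC T R hR (w := x) (u := R.r) (v := c) (Or.inl ⟨hDr, hD⟩)
    exact hq (hs.2 q)
  obtain ⟨p, hd⟩ := TD25.main4 R g (fun v => by rw [hn]; exact h12 v) (by
    intro c hc hcr
    rw [hn] at hc
    obtain ⟨h1, h2, h3, h4⟩ := hg c hc (by rw [← hRr]; exact hcr)
    rw [← hRr] at h1 h2
    refine ⟨h1, h2.1, hanc c _ h1 h2, ?_, ?_, ?_⟩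
    · intro x hx1 hx2 hx3
      rw [hn]
      exact (h3 x (hseg _ _ _ hx1 hx2 hx3)).1
    · intro c' hc' hcr' hx1 hx2 hx3
      rw [hn] at hc'
      exact (h3 (g c') (hseg _ _ _ hx1 hx2 hx3)).2 c' hc' (by rw [← hRr]; exact hcr') rfl
    · rcases h4 with h | h
      · left; rw [hn]; exact h
      · right
        intro x hx1 hx2 hx3
        rw [hn]
        exact h x (hseg _ _ _ hx1 hx2 hx3))
  refine ⟨p, ?_, ?_⟩
  · intro x y hxy
    by_contra hne
    exact hd.1 x (mem_univ x) y (mem_univ y) hne hxy
  · intro G hG
    have h1 := TD25.mst R p hd G hG.connected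
    have h2 := TD25.sum_tree T R hR p
    have h3 : totalLength p T = ∑ v ∈ univ.erase R.r, ‖p v - p (R.par v)‖ := by
      rw [← h2]
      unfold totalLength TD25.len
      congr!
    have h4 : totalLength p G = ∑ e ∈ G.edgeFinset, TD25.len p e := by
      unfold totalLength TD25.len
      congr!
    rw [h3, h4]
    refine h1.trans (le_of_eq ?_)
    congr!

end Pool.Agent.Results.MP_7da257_lc.GuardedHighDegrees
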